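import Pool.Agent.Helper60.HB.MAINP
import Pool.Agent.Helper67.HB.ASL
import Pool.Agent.Helper89.HB.BT
import Pool.Agent.Helper61.HB.C0
import Pool.Agent.Helper76.HB.CJB
import Pool.Agent.Helper67.HB.DEG
import Pool.Agent.Helper24.HB.DERB
import Pool.Agent.Helper67.HB.GENS
import Pool.Agent.Helper67.HB.HB
import Pool.Agent.Helper76.HB.HRM
import Pool.Agent.Helper67.HB.HTS
import Pool.Agent.Helper35.HB.INIT
import Pool.Agent.Helper67.HB.KUM
import Pool.Agent.Helper52.HB.LIOU
import Pool.Agent.Helper33.HB.LOW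
import Pool.Agent.Helper83.HB.PARM
import Pool.Agent.Helper59.HB.REL
import Pool.Agent.Helper41.HB.SCHW
import Pool.Agent.Helper41.HB.SIEG
import Pool.Agent.Helper8.HB.SPLIT
import Pool.Agent.Helper67.HB.TERM
import Pool.Agent.Helper24.HB.TORB
import Pool.Agent.Helper8.HB.UP

/-!
# Baker's theorem on linear forms in logarithms

`all_BT : ST_BT` : lower bounds for linear forms in logarithms of algebraic numbers, with the
product of the heights.
-/

set_option autoImplicit false

namespace Pool.Agent.Helper60.HB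

theorem all_C0 : ST_C0 := Pool.Agent.Helper61.HB.st_C0
theorem all_HB : ST_HB := st_HB
theorem all_ASL : ST_ASL := st_ASL st_HRM st_SCHW
theorem all_UP : ST_UP := Pool.Agent.Helper8.HB.st_UP all_ASL st_DERB
theorem all_INIT : ST_INIT := Pool.Agent.Helper35.HB.st_INIT st_SIEG st_HB
theorem all_LOW : ST_LOW :=
  Pool.Agent.Helper33.HB.st_LOW st_HB st_DEG Pool.Agent.Helper52.HB.st_LIOU st_GENS st_CJB
theorem all_SPLIT : ST_SPLIT := Pool.Agent.Helper8.HB.st_SPLIT st_KUM
theorem all_MAINP : ST_MAINP :=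
  st_MAINP all_INIT all_UP all_LOW all_SPLIT Pool.Agent.Helper83.HB.st_PARM
theorem all_TERM : ST_TERM := st_TERM all_C0
theorem all_REL : ST_REL := st_REL all_C0

/-- Baker's theorem. -/
theorem all_BT : ST_BT := Pool.Agent.Helper89.HB.st_BT all_MAINP all_TERM st_TORB all_REL

end Pool.Agent.Helper60.HB
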