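import Mathlib

set_option autoImplicit false

/-! # Linear forms in logarithms (product of heights) and integral points on Mordell curves:
definitions -/

open NumberField

namespace Pool.Agent.Helper60.HB

noncomputable section

/-- `∑ μ_i l_i` -/
def LS {n : ℕ} (l : Fin n → ℂ) (μ : Fin n → ℤ) : ℂ := ∑ i, (μ i : ℂ) * l i

/-- `exp (z ∑ μ_i l_i)` -/
def EX {n : ℕ} (l : Fin n → ℂ) (μ : Fin n → ℤ) (z : ℂ) : ℂ := Complex.exp (z * LS l μ)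

/-- `∏_r (b_e μ_r - b_r μ_e) ^ m_r` -/
def GC {n : ℕ} (b : Fin n → ℤ) (e : Fin n) (m : Fin n → ℕ) (μ : Fin n → ℤ) : ℤ :=
  ∏ r, (b e * μ r - b r * μ e) ^ m r

/-- the box of exponents -/
def BX {n : ℕ} (L : Fin n → ℕ) : Finset (Fin n → ℤ) :=
  Fintype.piFinset (fun i => Finset.Icc (0 : ℤ) (L i : ℤ))

/-- the auxiliary function -/
def PH {n : ℕ} (b : Fin n → ℤ) (e : Fin n) (l : Fin n → ℂ) (s : Finset (Fin n → ℤ))
    (p : (Fin n → ℤ) → ℤ) (m : Fin n → ℕ) (z : ℂ) : ℂ :=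
  ∑ μ ∈ s, ((p μ * GC b e m μ : ℤ) : ℂ) * EX l μ z

/-- data for a linear form in logarithms -/
structure BData (n : ℕ) (K : Type) [Field K] [NumberField K] where
  σ : K →+* ℂ
  α : Fin n → K
  l : Fin n → ℂ
  A : Fin n → ℝ
  α_ne : ∀ i, α i ≠ 0
  exp_l : ∀ i, Complex.exp (l i) = σ (α i)
  one_le_A : ∀ i, 1 ≤ A i
  l_le : ∀ i, ‖l i‖ ≤ A i
  h_le : ∀ i, Height.logHeight₁ (α i) ≤ A i

open Classical in
/-- the exponents `μ` of the box with `exp (∑ (μ_i - μ0_i) l_i / 2 ^ J) ∈ σ K` -/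
def SU {n : ℕ} {K : Type} [Field K] [NumberField K] (D : BData n K) (L : Fin n → ℕ)
    (μ0 : Fin n → ℤ) (J : ℕ) : Finset (Fin n → ℤ) :=
  (BX L).filter (fun μ => EX D.l (μ - μ0) (1 / 2 ^ J) ∈ D.σ.fieldRange)

/-- the vanishing conditions at level `J` -/
def LV {n : ℕ} {K : Type} [Field K] [NumberField K] (D : BData n K) (b : Fin n → ℤ) (e : Fin n)
    (L : Fin n → ℕ) (p : (Fin n → ℤ) → ℤ) (μ0 : Fin n → ℤ) (S T J : ℕ) : Prop :=
  ∀ m : Fin n → ℕ, (∑ i, m i) < T → ∀ k : ℕ, Odd k → k ≤ 2 ^ J * S →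
    PH b e D.l (SU D L μ0 J) p m ((k : ℂ) / 2 ^ J) = 0

/-- `Zc` bounds all the numbers `b_e μ_r - b_r μ_e`, `μ_e` and the derivatives of the exponents -/
def ZB {n : ℕ} (b : Fin n → ℤ) (e : Fin n) (l : Fin n → ℂ) (L : Fin n → ℕ) (Zc : ℝ) : Prop :=
  1 ≤ Zc ∧ ∀ μ ∈ BX L, (∀ r, |((b e * μ r - b r * μ e : ℤ) : ℝ)| ≤ Zc) ∧ |(μ e : ℝ)| ≤ Zc ∧
    ‖∑ r, ((b e * μ r - b r * μ e : ℤ) : ℂ) * l r‖ + ‖(μ e : ℂ) * LS l b‖ ≤ Zc

/-- the termination property with constant `c` -/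
def TP {n : ℕ} {K : Type} [Field K] [NumberField K] (D : BData n K) (c : ℝ) : Prop :=
  ∀ (J : ℕ) (μ : Fin n → ℤ) (Lr : ℝ), 0 < Lr → (∀ i, |(μ i : ℝ)| * D.A i ≤ Lr) →
    Lr ≤ c * 2 ^ J → EX D.l μ (1 / 2 ^ J) ∈ D.σ.fieldRange → μ = 0

/-- torsion elements of the multiplicative group of a field -/
def TOR {K : Type} [Field K] (x : K) : Prop := ∃ m : ℕ, 0 < m ∧ x ^ m = 1

/-- elementary size of a nonzero element of a number field: common denominator of `x` and `x⁻¹`,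
logarithms of the absolute values of the conjugates -/
def SizeLe {K : Type} [Field K] [NumberField K] (x : K) (a : ℝ) : Prop :=
  (∃ q : ℕ, 1 ≤ q ∧ Real.log q ≤ a ∧ IsIntegral ℤ ((q : K) * x) ∧ IsIntegral ℤ ((q : K) * x⁻¹)) ∧
    ∀ τ : K →+* ℂ, |Real.log ‖τ x‖| ≤ a

/-- Minkowski property at level `Δ`: algebraic integers of norm at most `exp Δ` near every point of
the logarithmic space -/
def MP (K : Type) [Field K] [NumberField K] (Δ : ℝ) : Prop :=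
  1 ≤ Δ ∧ ∀ t : InfinitePlace K → ℝ, ∑ w, (w.mult : ℝ) * t w = 0 →
    ∃ a : 𝓞 K, a ≠ 0 ∧ (((Algebra.norm ℤ a).natAbs : ℕ) : ℝ) ≤ Real.exp Δ ∧
      ∀ w : InfinitePlace K, |Real.log (w (a : K)) - t w| ≤ Δ

/-- reduced system of units: `lam i` is (a bound for) the sup norm of the logarithmic vector of
`η i` -/
structure UL (K : Type) [Field K] [NumberField K] (c1 : ℝ) (r : ℕ) (η : Fin r → (𝓞 K)ˣ)
    (lam : Fin r → ℝ) : Prop where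
  lam_ge : ∀ i, c1 ≤ lam i
  log_le : ∀ i (w : InfinitePlace K), |Real.log (w ((η i : 𝓞 K) : K))| ≤ lam i
  span : ∀ t : InfinitePlace K → ℝ, ∑ w, (w.mult : ℝ) * t w = 0 →
    ∃ x : Fin r → ℝ, ∀ w, t w = ∑ i, x i * Real.log (w ((η i : 𝓞 K) : K))
  orth : ∀ (x : Fin r → ℝ) (M : ℝ),
    (∀ w : InfinitePlace K, |∑ i, x i * Real.log (w ((η i : 𝓞 K) : K))| ≤ M) →
      ∀ i, c1 * |x i| * lam i ≤ M
  gen : ∀ u : (𝓞 K)ˣ, ∃ k : Fin r → ℤ, ∀ w : InfinitePlace K,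
    Real.log (w ((u : 𝓞 K) : K)) = ∑ i, (k i : ℝ) * Real.log (w ((η i : 𝓞 K) : K))

end

end Pool.Agent.Helper60.HB
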