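import Pool.Agent.Helper60.HB.Skel

set_option autoImplicit false

/-! # Assembly of the main proposition of Part A -/

open NumberField

namespace Pool.Agent.Helper60.HB

theorem mem_BX {n : ℕ} {L : Fin n → ℕ} {μ : Fin n → ℤ} :
    μ ∈ BX L ↔ ∀ i, 0 ≤ μ i ∧ μ i ≤ (L i : ℤ) := by
  simp [BX, Fintype.mem_piFinset]

theorem card_BX {n : ℕ} (L : Fin n → ℕ) : (BX L).card = ∏ i, (L i + 1) := by
  simp [BX, Fintype.card_piFinset]

theorem EX_one_mem {n : ℕ} {K : Type} [Field K] [NumberField K] (D : BData n K)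
    (μ : Fin n → ℤ) : EX D.l μ 1 ∈ D.σ.fieldRange := by
  refine ⟨∏ i, D.α i ^ μ i, ?_⟩
  rw [map_prod, EX, LS, one_mul, Complex.exp_sum]
  refine Finset.prod_congr rfl fun i _ => ?_
  rw [map_zpow₀, ← D.exp_l, ← Complex.exp_int_mul]

theorem SU_zero {n : ℕ} {K : Type} [Field K] [NumberField K] (D : BData n K) (L : Fin n → ℕ)
    (μ0 : Fin n → ℤ) : SU D L μ0 0 = BX L := by
  classical
  unfold SU
  rw [Finset.filter_eq_self]
  intro μ _
  have := EX_one_mem D (μ - μ0)
  simpa using this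

theorem sum_abs_le {n : ℕ} {K : Type} [Field K] [NumberField K] (D : BData n K)
    (b : Fin n → ℤ) (e : Fin n) (L : Fin n → ℕ) (p : (Fin n → ℤ) → ℤ) (μ0 : Fin n → ℤ)
    (J τ : ℕ) (P Zc : ℝ) (m : Fin n → ℕ) (hP0 : 0 ≤ P) (hp : ∀ μ, |(p μ : ℝ)| ≤ P)
    (hZ : ZB b e D.l L Zc) (hm : (∑ i, m i) < τ) :
    (∑ μ ∈ SU D L μ0 J, |((p μ * GC b e m μ : ℤ) : ℝ)|) ≤ (BX L).card * P * Zc ^ τ := by
  classical
  have hsub : SU D L μ0 J ⊆ BX L := by
    unfold SU
    exact Finset.filter_subset _ _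
  calc (∑ μ ∈ SU D L μ0 J, |((p μ * GC b e m μ : ℤ) : ℝ)|)
      ≤ ∑ μ ∈ SU D L μ0 J, P * Zc ^ τ := by
        refine Finset.sum_le_sum fun μ hμ => ?_
        push_cast
        rw [abs_mul]
        refine mul_le_mul (hp μ) ?_ (abs_nonneg _) hP0
        have h1 : |((GC b e m μ : ℤ) : ℝ)| ≤ Zc ^ (∑ i, m i) := by
          unfold GC
          push_cast
          rw [Finset.abs_prod, ← Finset.prod_pow_eq_pow_sum]
          refine Finset.prod_le_prod (fun _ _ => abs_nonneg _) fun i _ => ?_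
          rw [abs_pow]
          refine pow_le_pow_left₀ (abs_nonneg _) ?_ _
          have := (hZ.2 μ (hsub hμ)).1 i
          push_cast at this
          exact this
        exact h1.trans (pow_le_pow_right₀ hZ.1 hm.le)
    _ = (SU D L μ0 J).card * (P * Zc ^ τ) := by
        rw [Finset.sum_const, nsmul_eq_mul]
    _ ≤ (BX L).card * (P * Zc ^ τ) := by
        refine mul_le_mul_of_nonneg_right ?_ (mul_nonneg hP0 (pow_nonneg (by linarith [hZ.1]) _))
        exact_mod_cast Finset.card_le_card hsub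
    _ = _ := by ring

theorem st_MAINP (hINIT : ST_INIT) (hUP : ST_UP) (hLOW : ST_LOW) (hSPLIT : ST_SPLIT)
    (hPARM : ST_PARM) : ST_MAINP := by
  classical
  intro n d c hn hc hc1
  rcases Nat.eq_zero_or_pos d with hd | hd
  · refine ⟨1, le_rfl, ?_⟩
    intro K _ _ hK
    have : 0 < Module.finrank ℚ K := Module.finrank_pos
    omega
  obtain ⟨C, hC1, hC⟩ := hPARM n d c hn hd hc hc1
  refine ⟨C, hC1, ?_⟩
  intro K _ _ hK D hTP b B hb hB hbB
  by_contra hcon
  push Not at hcon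
  set Om : ℝ := ∏ i, D.A i with hOm
  have hprod1 : ∀ s : Finset (Fin n), 1 ≤ ∏ j ∈ s, D.A j := by
    intro s
    induction s using Finset.induction_on with
    | empty => simp
    | insert a s ha ih =>
      rw [Finset.prod_insert ha]
      nlinarith [D.one_le_A a]
  have hOm1 : 1 ≤ Om := hprod1 _
  obtain ⟨Lr, S, c0, Js, hLr1, hLrJs, hSe, hS2, hc01, hcount, hmain⟩ := hC Om B hOm1 hB
  obtain ⟨e, he⟩ : ∃ e, b e ≠ 0 := Function.ne_iff.mp hb
  have hApos : ∀ i, 0 < D.A i := fun i => lt_of_lt_of_le one_pos (D.one_le_A i)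
  have hLr0 : 0 < Lr := lt_of_lt_of_le one_pos hLr1
  set L : Fin n → ℕ := fun i => ⌊Lr / D.A i⌋₊ with hLdef
  have hL : ∀ i, (L i : ℝ) * D.A i ≤ Lr := by
    intro i
    have := Nat.floor_le (div_nonneg hLr0.le (hApos i).le)
    calc (L i : ℝ) * D.A i ≤ (Lr / D.A i) * D.A i :=
          mul_le_mul_of_nonneg_right this (hApos i).le
      _ = Lr := div_mul_cancel₀ _ (hApos i).ne'
  have hLle : ∀ i, (L i : ℝ) ≤ Lr := fun i =>
    (le_mul_of_one_le_right (Nat.cast_nonneg _) (D.one_le_A i)).trans (hL i)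
  have hAOm : ∀ i, D.A i ≤ Om := by
    intro i
    rw [hOm, ← Finset.mul_prod_erase Finset.univ _ (Finset.mem_univ i)]
    exact le_mul_of_one_le_right (hApos i).le (hprod1 _)
  set Zc : ℝ := 3 * n * B * Om * Lr with hZc
  have hn1 : (1 : ℝ) ≤ n := by exact_mod_cast hn
  have hB0 : 0 < B := by linarith
  have hBOm : 0 < B * Om := by positivity
  have hbase : 0 ≤ B * Om * Lr := by positivity
  have hbn : B * Om * Lr ≤ n * (B * Om * Lr) := le_mul_of_one_le_left hbase hn1
  have hZc1 : 1 ≤ Zc := by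
    have h1 : 1 ≤ B * Om * Lr := by
      have : 1 ≤ B * Om := by nlinarith
      nlinarith
    have : Zc = 3 * (n * (B * Om * Lr)) := by rw [hZc]; ring
    rw [this]
    linarith
  -- bounds on the box
  have hμL : ∀ μ ∈ BX L, ∀ i, |(μ i : ℝ)| ≤ L i := by
    intro μ hμ i
    have := (mem_BX.1 hμ) i
    rw [abs_of_nonneg (by exact_mod_cast this.1)]
    exact_mod_cast this.2
  have hΛ : ‖LS D.l b‖ ≤ n * (B * Om) := by
    unfold LS
    calc ‖∑ i, (b i : ℂ) * D.l i‖ ≤ ∑ i, ‖(b i : ℂ) * D.l i‖ := norm_sum_le _ _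
      _ ≤ ∑ _i : Fin n, B * Om := by
          refine Finset.sum_le_sum fun i _ => ?_
          rw [norm_mul, Complex.norm_intCast]
          exact mul_le_mul (hbB i) ((D.l_le i).trans (hAOm i)) (norm_nonneg _) hB0.le
      _ = n * (B * Om) := by simp
  have hG : ∀ μ ∈ BX L, ∀ r, |((b e * μ r - b r * μ e : ℤ) : ℝ)| ≤ 2 * (B * Lr) := by
    intro μ hμ r
    push_cast
    have h1 : |(b e : ℝ) * μ r| ≤ B * Lr := by
      rw [abs_mul]
      exact mul_le_mul (hbB e) ((hμL μ hμ r).trans (hLle r)) (abs_nonneg _) hB0.le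
    have h2 : |(b r : ℝ) * μ e| ≤ B * Lr := by
      rw [abs_mul]
      exact mul_le_mul (hbB r) ((hμL μ hμ e).trans (hLle e)) (abs_nonneg _) hB0.le
    have := abs_sub ((b e : ℝ) * μ r) ((b r : ℝ) * μ e)
    linarith
  have hBLr : B * Lr ≤ B * Om * Lr := by nlinarith [mul_pos hB0 hLr0]
  have hZB : ZB b e D.l L Zc := by
    refine ⟨hZc1, fun μ hμ => ⟨fun r => ?_, ?_, ?_⟩⟩
    · have : Zc = 3 * (n * (B * Om * Lr)) := by rw [hZc]; ring
      rw [this]
      linarith [hG μ hμ r]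
    · have h1 := (hμL μ hμ e).trans (hLle e)
      have : Zc = 3 * (n * (B * Om * Lr)) := by rw [hZc]; ring
      rw [this]
      have h2 : Lr ≤ B * Om * Lr := by
        have : 1 ≤ B * Om := by nlinarith
        nlinarith
      linarith
    · have h1 : ‖∑ r, ((b e * μ r - b r * μ e : ℤ) : ℂ) * D.l r‖ ≤ n * (2 * (B * Lr) * Om) := by
        calc ‖∑ r, ((b e * μ r - b r * μ e : ℤ) : ℂ) * D.l r‖
            ≤ ∑ r, ‖((b e * μ r - b r * μ e : ℤ) : ℂ) * D.l r‖ := norm_sum_le _ _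
          _ ≤ ∑ _r : Fin n, 2 * (B * Lr) * Om := by
              refine Finset.sum_le_sum fun r _ => ?_
              rw [norm_mul, Complex.norm_intCast]
              exact mul_le_mul (hG μ hμ r) ((D.l_le r).trans (hAOm r)) (norm_nonneg _)
                (by positivity)
          _ = n * (2 * (B * Lr) * Om) := by simp
      have h2 : ‖(μ e : ℂ) * LS D.l b‖ ≤ Lr * (n * (B * Om)) := by
        rw [norm_mul, Complex.norm_intCast]
        exact mul_le_mul ((hμL μ hμ e).trans (hLle e)) hΛ (norm_nonneg _) hLr0.le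
      have h3 : Zc = n * (2 * (B * Lr) * Om) + Lr * (n * (B * Om)) := by rw [hZc]; ring
      rw [h3]
      exact add_le_add h1 h2
  -- cardinality
  have hcardR : ((BX L).card : ℝ) = ∏ i, ((L i : ℝ) + 1) := by
    rw [card_BX]
    push_cast
    rfl
  have hN1 : (1 : ℝ) ≤ (BX L).card := by
    have : 0 < (BX L).card := by
      rw [card_BX]
      exact Finset.prod_pos fun i _ => Nat.succ_pos _
    exact_mod_cast this
  have hNup : ((BX L).card : ℝ) ≤ (Lr + 1) ^ n := by
    rw [hcardR]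
    calc ∏ i, ((L i : ℝ) + 1) ≤ ∏ _i : Fin n, (Lr + 1) :=
          Finset.prod_le_prod (fun i _ => by positivity) fun i _ => by linarith [hLle i]
      _ = (Lr + 1) ^ n := by simp
  have hNlow : Lr ^ n / Om ≤ ((BX L).card : ℝ) := by
    rw [hcardR]
    calc Lr ^ n / Om = ∏ i, (Lr / D.A i) := by
          rw [Finset.prod_div_distrib, hOm]
          simp
      _ ≤ ∏ i, ((L i : ℝ) + 1) :=
          Finset.prod_le_prod (fun i _ => div_nonneg hLr0.le (hApos i).le)
            fun i _ => (Nat.lt_floor_add_one _).le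
  have hcountN : 4 * Module.finrank ℚ K * (S * (c0 * 2 ^ Js) ^ (n - 1)) ≤ (BX L).card := by
    rw [hK]
    have := hcount.trans hNlow
    exact_mod_cast this
  have hT1 : 1 ≤ c0 * 2 ^ Js := Nat.mul_pos hc01 (pow_pos (by norm_num) _)
  obtain ⟨p, ⟨μ0, hμ0, hpμ0⟩, hp, hinit⟩ :=
    hINIT n K D b e L S (c0 * 2 ^ Js) Zc Lr hL hZB (by omega) hT1 hcountN
  set P : ℝ := 7 * ((BX L).card : ℝ) * (Zc ^ (c0 * 2 ^ Js) * Real.exp (3 * n * Lr * S)) with hP
  have hP1 : 1 ≤ P := by
    have h1 : 1 ≤ Zc ^ (c0 * 2 ^ Js) := one_le_pow₀ hZc1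
    have h2 : 1 ≤ Real.exp (3 * n * Lr * S) := Real.one_le_exp (by positivity)
    have h3 : 1 ≤ Zc ^ (c0 * 2 ^ Js) * Real.exp (3 * n * Lr * S) := one_le_mul_of_one_le_of_one_le h1 h2
    have h4 : 1 ≤ 7 * ((BX L).card : ℝ) := by linarith
    exact one_le_mul_of_one_le_of_one_le h4 h3
  have hLam0 : 0 ≤ ‖LS D.l b‖ := norm_nonneg _
  -- the induction
  have hind : ∀ J : ℕ, J ≤ Js → LV D b e L p μ0 S (c0 * 2 ^ (Js - J)) J := by
    intro J
    induction J with
    | zero =>
      intro _ m hm k hk hkS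
      rw [SU_zero]
      have := hinit m (by simpa using hm) k hk (by simpa using hkS)
      simpa using this
    | succ J ih =>
      intro hJ m hm k hk hkS
      have hJ' : J ≤ Js := by omega
      have hlev := ih hJ'
      set τ : ℕ := c0 * 2 ^ (Js - (J + 1)) with hτ
      have h2τ : c0 * 2 ^ (Js - J) = 2 * τ := by
        have : Js - J = (Js - (J + 1)) + 1 := by omega
        rw [this, pow_succ, hτ]
        ring
      rw [h2τ] at hlev
      have hτ1 : 1 ≤ τ := Nat.mul_pos hc01 (pow_pos (by norm_num) _)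
      have hup := hUP n K D b e L p μ0 S J τ P Zc Lr m k he hSe hS2 hτ1 hp hL hZB hlev hm hkS
      have hfin := hmain ((BX L).card : ℝ) ‖LS D.l b‖ Zc P J τ hN1 hNup hLam0 hcon rfl hP hJ hτ
      have hsum := sum_abs_le D b e L p μ0 J τ P Zc m (by linarith) hp hZB hm
      have hC1' : 1 ≤ ((BX L).card : ℝ) * P * Zc ^ τ := by
        have h1 : 1 ≤ ((BX L).card : ℝ) * P := one_le_mul_of_one_le_of_one_le hN1 hP1
        exact one_le_mul_of_one_le_of_one_le h1 (one_le_pow₀ hZc1)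
      have hzero : PH b e D.l (SU D L μ0 J) p m ((k : ℂ) / 2 ^ (J + 1)) = 0 := by
        by_contra hne
        have hlow := hLOW n K D L Lr μ0 J S (fun μ => p μ * GC b e m μ)
          (((BX L).card : ℝ) * P * Zc ^ τ) k hL hμ0 hC1' hsum hkS hne
        rw [hK] at hlow
        have hlow' : Real.exp (-((2 ^ n * d + 1 : ℕ) : ℝ) *
            (Real.log (((BX L).card : ℝ) * P * Zc ^ τ) + 3 * n * Lr * S)) ≤
            ‖PH b e D.l (SU D L μ0 J) p m ((k : ℂ) / 2 ^ (J + 1))‖ := hlow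
        linarith
      exact hSPLIT n K D L μ0 J (fun μ => p μ * GC b e m μ) k hk hzero
  -- the end
  have hlast := hind Js le_rfl
  rw [Nat.sub_self, pow_zero, mul_one] at hlast
  have hSU : SU D L μ0 Js = {μ0} := by
    ext μ
    simp only [SU, Finset.mem_filter, Finset.mem_singleton]
    constructor
    · rintro ⟨hμ, hr⟩
      have := hTP Js (μ - μ0) Lr hLr0 (fun i => ?_) hLrJs hr
      · exact sub_eq_zero.1 this
      · have h1 := (mem_BX.1 hμ) i
        have h2 := (mem_BX.1 hμ0) i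
        have h3 : |((μ - μ0) i : ℝ)| ≤ L i := by
          have : |(μ - μ0) i| ≤ (L i : ℤ) := by
            rw [Pi.sub_apply, abs_le]
            constructor <;> linarith [h1.1, h1.2, h2.1, h2.2]
          exact_mod_cast this
        exact (mul_le_mul_of_nonneg_right h3 (hApos i).le).trans (hL i)
    · rintro rfl
      refine ⟨hμ0, ?_⟩
      simp only [sub_self, EX, LS, Pi.zero_apply, Int.cast_zero, zero_mul,
        Finset.sum_const_zero, mul_zero, Complex.exp_zero]
      exact one_mem _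
  have hk1 : 1 ≤ 2 ^ Js * S := Nat.mul_pos (pow_pos (by norm_num) _) (by omega)
  have hz := hlast 0 (by simp; omega) 1 odd_one hk1
  rw [hSU, PH, Finset.sum_singleton] at hz
  have hGC : GC b e 0 μ0 = 1 := by simp [GC]
  rw [hGC, mul_one, mul_eq_zero] at hz
  rcases hz with hz | hz
  · exact hpμ0 (by exact_mod_cast hz)
  · exact Complex.exp_ne_zero _ hz

end Pool.Agent.Helper60.HB
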