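import Pool.Agent.Helper60.HB.Defs

set_option autoImplicit false

/-! # Statements of the modules -/

open NumberField

namespace Pool.Agent.Helper60.HB

/-! ## Part A: linear forms in logarithms -/

/-- uniform lower bound for heights -/
def ST_C0 : Prop := ∀ d : ℕ, ∃ c : ℝ, 0 < c ∧ c ≤ 1 ∧
  ∀ (K : Type) [Field K] [NumberField K], Module.finrank ℚ K = d →
    ∀ x : K, x ≠ 0 → Height.logHeight₁ x < c → TOR x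

/-- torsion -/
def ST_TORB : Prop := ∀ d : ℕ, ∃ W : ℕ, ∀ (K : Type) [Field K] [NumberField K],
  Module.finrank ℚ K = d → ∀ σ : K →+* ℂ, ∃ w : ℕ, 1 ≤ w ∧ w ≤ W ∧
    (∃ ζ : K, σ ζ = Complex.exp (2 * Real.pi * Complex.I / w)) ∧ ∀ x : K, TOR x → x ^ w = 1

/-- sizes from heights -/
def ST_HB : Prop := ∀ (K : Type) [Field K] [NumberField K] (x : K), x ≠ 0 →
  (∀ τ : K →+* ℂ, |Real.log ‖τ x‖| ≤ Height.logHeight₁ x) ∧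
  ∃ q : ℕ, 1 ≤ q ∧ Real.log q ≤ 2 * Height.logHeight₁ x ∧
    IsIntegral ℤ ((q : K) * x) ∧ IsIntegral ℤ ((q : K) * x⁻¹)

/-- heights from sizes -/
def ST_HTS : Prop := ∀ (K : Type) [Field K] [NumberField K] (x : K) (q : ℕ) (M : ℝ),
  1 ≤ q → 1 ≤ M → IsIntegral ℤ ((q : K) * x) → (∀ τ : K →+* ℂ, ‖τ x‖ ≤ M) →
  Height.logHeight₁ x ≤ (Module.finrank ℚ K : ℝ) * (Real.log q + Real.log M)

/-- termination property for multiplicatively independent numbers -/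
def ST_TERM : Prop := ∀ n d : ℕ, ∃ c : ℝ, 0 < c ∧ c ≤ 1 ∧
  ∀ (K : Type) [Field K] [NumberField K], Module.finrank ℚ K = d →
    ∀ (D : BData (n + 1) K) (w : ℕ), 1 ≤ w → D.l 0 = 2 * Real.pi * Complex.I / w →
    (∀ x : K, TOR x → x ^ w = 1) →
    (∀ ν : Fin n → ℤ, TOR (∏ i, D.α i.succ ^ ν i) → ν = 0) → TP D c

/-- small multiplicative relations -/
def ST_REL : Prop := ∀ n d : ℕ, ∃ C : ℝ, 1 ≤ C ∧ ∀ (K : Type) [Field K] [NumberField K],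
  Module.finrank ℚ K = d → ∀ (α : Fin n → K) (A : ℝ), 1 ≤ A → (∀ i, α i ≠ 0) →
    (∀ i, Height.logHeight₁ (α i) ≤ A) → (∃ ν : Fin n → ℤ, ν ≠ 0 ∧ TOR (∏ i, α i ^ ν i)) →
    ∃ ν : Fin n → ℤ, ν ≠ 0 ∧ (∀ i, |(ν i : ℝ)| ≤ C * A ^ n) ∧ TOR (∏ i, α i ^ ν i)

/-- degrees after adjoining square roots -/
def ST_DEG : Prop := ∀ (n : ℕ) (K : Type) [Field K] [NumberField K] (σ : K →+* ℂ)
  (x : Fin n → ℂ), (∀ i, x i ^ 2 ∈ σ.fieldRange) →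
  ∀ y : ℂ, y ∈ Subfield.closure ((σ.fieldRange : Set ℂ) ∪ Set.range x) →
    IsIntegral ℚ y ∧ (minpoly ℚ y).natDegree ≤ 2 ^ n * Module.finrank ℚ K

/-- Liouville inequality -/
def ST_LIOU : Prop := ∀ (y : ℂ) (D : ℕ) (M : ℝ), IsIntegral ℤ y → y ≠ 0 → 1 ≤ D →
  (minpoly ℚ y).natDegree ≤ D → 1 ≤ M →
  (∀ z : ℂ, Polynomial.aeval z (minpoly ℚ y) = 0 → ‖z‖ ≤ M) → 1 ≤ ‖y‖ * M ^ (D - 1)

/-- `n` square roots generate all the numbers `exp (∑ μ_i l_i / 2 ^ (J + 1))` -/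
def ST_GENS : Prop := ∀ (n : ℕ) (K : Type) [Field K] [NumberField K] (D : BData n K) (J : ℕ),
  ∃ x : Fin n → ℂ, (∀ i, x i ^ 2 ∈ D.σ.fieldRange) ∧ ∀ μ : Fin n → ℤ,
    EX D.l μ (1 / 2 ^ J) ∈ D.σ.fieldRange →
    EX D.l μ (1 / 2 ^ (J + 1)) ∈ Subfield.closure ((D.σ.fieldRange : Set ℂ) ∪ Set.range x)

/-- conjugates of sums of roots of elements of a number field -/
def ST_CJB : Prop := ∀ (K : Type) [Field K] [NumberField K] (σ : K →+* ℂ) (ι : Type)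
  (s : Finset ι) (c : ι → ℤ) (w : ι → ℂ) (κ : ι → K) (N : ℕ) (V : ℝ), 1 ≤ N → 0 ≤ V →
  (∀ i ∈ s, w i ^ N = σ (κ i)) → (∀ i ∈ s, ∀ τ : K →+* ℂ, ‖τ (κ i)‖ ≤ V ^ N) →
  ∀ z : ℂ, Polynomial.aeval z (minpoly ℚ (∑ i ∈ s, (c i : ℂ) * w i)) = 0 →
    ‖z‖ ≤ (∑ i ∈ s, |(c i : ℝ)|) * V

/-- lower bound for the auxiliary function at the points `k / 2 ^ (J + 1)` -/
def ST_LOW : Prop := ∀ (n : ℕ) (K : Type) [Field K] [NumberField K] (D : BData n K)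
  (L : Fin n → ℕ) (Lr : ℝ) (μ0 : Fin n → ℤ) (J S : ℕ) (c : (Fin n → ℤ) → ℤ) (C1 : ℝ) (k : ℕ),
  (∀ i, (L i : ℝ) * D.A i ≤ Lr) → μ0 ∈ BX L → 1 ≤ C1 →
  (∑ μ ∈ SU D L μ0 J, |(c μ : ℝ)|) ≤ C1 → k ≤ 2 ^ (J + 1) * S →
  (∑ μ ∈ SU D L μ0 J, (c μ : ℂ) * EX D.l μ ((k : ℂ) / 2 ^ (J + 1))) ≠ 0 →
  Real.exp (-((2 ^ n * Module.finrank ℚ K + 1 : ℕ) : ℝ) * (Real.log C1 + 3 * n * Lr * S)) ≤
    ‖∑ μ ∈ SU D L μ0 J, (c μ : ℂ) * EX D.l μ ((k : ℂ) / 2 ^ (J + 1))‖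

/-- linear independence of square roots -/
def ST_KUM : Prop := ∀ (F : Subfield ℂ) (ι : Type) [Fintype ι] (x : ι → ℂ), (∀ i, x i ≠ 0) →
  (∀ i, x i ^ 2 ∈ F) → (∀ i j, i ≠ j → x i / x j ∉ F) → ∀ c : ι → ℂ, (∀ i, c i ∈ F) →
  ∑ i, c i * x i = 0 → ∀ i, c i = 0

/-- Kummer descent -/
def ST_SPLIT : Prop := ∀ (n : ℕ) (K : Type) [Field K] [NumberField K] (D : BData n K)
  (L : Fin n → ℕ) (μ0 : Fin n → ℤ) (J : ℕ) (c : (Fin n → ℤ) → ℤ) (k : ℕ), Odd k →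
  (∑ μ ∈ SU D L μ0 J, (c μ : ℂ) * EX D.l μ ((k : ℂ) / 2 ^ (J + 1))) = 0 →
  (∑ μ ∈ SU D L μ0 (J + 1), (c μ : ℂ) * EX D.l μ ((k : ℂ) / 2 ^ (J + 1))) = 0

/-- Hermite interpolation with small data -/
def ST_HRM : Prop := ∀ (X : Finset ℤ) (τ : ℕ) (v : ℤ → ℕ → ℂ) (δ : ℝ),
  (∀ x ∈ X, ∀ y ∈ X, x ≠ y → 2 ≤ |x - y|) → 0 ≤ δ → (∀ x ∈ X, ∀ k < τ, ‖v x k‖ ≤ δ) →
  ∃ H : Polynomial ℂ,
    (∀ x ∈ X, ∀ k < τ, (Polynomial.taylor (x : ℂ) H).coeff k = v x k) ∧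
    ∀ (z : ℂ) (R : ℝ), 1 ≤ R → (∀ x ∈ X, ‖z - (x : ℂ)‖ ≤ R) →
      ‖H.eval z‖ ≤ X.card * τ * δ * R ^ (X.card * τ)

/-- Schwarz lemma with multiple zeros -/
def ST_SCHW : Prop := ∀ (f : ℂ → ℂ) (X : Finset ℤ) (τ : ℕ) (ρ R M : ℝ) (z0 : ℂ),
  Differentiable ℂ f → 0 < ρ → ρ < R → (∀ x ∈ X, |(x : ℝ)| ≤ ρ) →
  (∀ x ∈ X, ∀ k < τ, iteratedDeriv k f (x : ℂ) = 0) →
  (∀ w : ℂ, ‖w‖ = R → ‖f w‖ ≤ M) → ‖z0‖ ≤ ρ →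
  ‖f z0‖ ≤ M * (2 * ρ / (R - ρ)) ^ (X.card * τ)

/-- Schwarz lemma with almost zeros -/
def ST_ASL : Prop := ∀ (f : ℂ → ℂ) (X : Finset ℤ) (τ : ℕ) (ρ M δ : ℝ) (z0 : ℂ),
  Differentiable ℂ f → 1 ≤ ρ → 0 ≤ δ → (∀ x ∈ X, ∀ y ∈ X, x ≠ y → 2 ≤ |x - y|) →
  (∀ x ∈ X, |(x : ℝ)| ≤ ρ) → (∀ x ∈ X, ∀ k < τ, ‖iteratedDeriv k f (x : ℂ)‖ ≤ δ) →
  (∀ w : ℂ, ‖w‖ = 7 * ρ → ‖f w‖ ≤ M) → ‖z0‖ ≤ ρ →
  ‖f z0‖ ≤ (1 / 3) ^ (X.card * τ) * M +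
    2 * (X.card * τ) * δ * (8 * ρ) ^ (X.card * τ)

/-- the derivatives of the auxiliary function are small -/
def ST_DERB : Prop := ∀ (n : ℕ) (b : Fin n → ℤ) (e : Fin n) (l : Fin n → ℂ) (L : Fin n → ℕ)
  (s : Finset (Fin n → ℤ)) (p : (Fin n → ℤ) → ℤ) (J τ : ℕ) (P Zc a3 : ℝ) (m : Fin n → ℕ)
  (x : ℂ) (k : ℕ), b e ≠ 0 → s ⊆ BX L → ZB b e l L Zc → 0 ≤ P → (∀ μ, |(p μ : ℝ)| ≤ P) →
  (∑ i, m i) < τ → k < τ →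
  (∀ m' : Fin n → ℕ, (∑ i, m' i) < 2 * τ → PH b e l s p m' (x / 2 ^ J) = 0) →
  (∀ μ ∈ s, ‖EX l μ (x / 2 ^ J)‖ ≤ Real.exp a3) →
  ‖iteratedDeriv k (fun w => PH b e l s p m (w / 2 ^ J)) x‖ ≤
    ‖LS l b‖ * ((BX L).card * P * Zc ^ (2 * τ + 1) * τ * Real.exp a3)

/-- upper bound for the auxiliary function at the points `k / 2 ^ (J + 1)` -/
def ST_UP : Prop := ∀ (n : ℕ) (K : Type) [Field K] [NumberField K] (D : BData n K)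
  (b : Fin n → ℤ) (e : Fin n) (L : Fin n → ℕ) (p : (Fin n → ℤ) → ℤ) (μ0 : Fin n → ℤ)
  (S J τ : ℕ) (P Zc Lr : ℝ) (m : Fin n → ℕ) (k : ℕ),
  b e ≠ 0 → Even S → 2 ≤ S → 1 ≤ τ → (∀ μ, |(p μ : ℝ)| ≤ P) →
  (∀ i, (L i : ℝ) * D.A i ≤ Lr) → ZB b e D.l L Zc → LV D b e L p μ0 S (2 * τ) J →
  (∑ i, m i) < τ → k ≤ 2 ^ (J + 1) * S →
  ‖PH b e D.l (SU D L μ0 J) p m ((k : ℂ) / 2 ^ (J + 1))‖ ≤
    (1 / 3) ^ (2 ^ J * (S / 2) * τ) *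
      ((BX L).card * P * Zc ^ τ * Real.exp (7 * n * Lr * S)) +
    ‖LS D.l b‖ * (2 * ((2 ^ J * (S / 2) * τ : ℕ) : ℝ) *
      ((BX L).card * P * Zc ^ (2 * τ + 1) * τ * Real.exp (n * Lr * S)) *
      (8 * (2 ^ J * S)) ^ (2 ^ J * (S / 2) * τ))

/-- Siegel's lemma by pigeonhole, uniform in the number field -/
def ST_SIEG : Prop := ∀ (K : Type) [Field K] [NumberField K] (ι κ : Type) (Λ : Finset ι)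
  (E : Finset κ) (y : κ → ι → K) (Q : ℕ) (V : ℝ), 1 ≤ Q → 1 ≤ V →
  (∀ e ∈ E, ∀ i ∈ Λ, IsIntegral ℤ ((Q : K) * y e i)) →
  (∀ e ∈ E, ∀ i ∈ Λ, ∀ τ : K →+* ℂ, ‖τ ((Q : K) * y e i)‖ ≤ V) →
  4 * Module.finrank ℚ K * E.card ≤ Λ.card → 0 < Λ.card →
  ∃ p : ι → ℤ, (∃ i ∈ Λ, p i ≠ 0) ∧ (∀ i, |(p i : ℝ)| ≤ 7 * Λ.card * V) ∧
    ∀ e ∈ E, ∑ i ∈ Λ, (p i : K) * y e i = 0

/-- existence of the coefficients of the auxiliary function -/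
def ST_INIT : Prop := ∀ (n : ℕ) (K : Type) [Field K] [NumberField K] (D : BData n K)
  (b : Fin n → ℤ) (e : Fin n) (L : Fin n → ℕ) (S T : ℕ) (Zc Lr : ℝ),
  (∀ i, (L i : ℝ) * D.A i ≤ Lr) → ZB b e D.l L Zc → 1 ≤ S → 1 ≤ T →
  4 * Module.finrank ℚ K * (S * T ^ (n - 1)) ≤ (BX L).card →
  ∃ p : (Fin n → ℤ) → ℤ, (∃ μ0 ∈ BX L, p μ0 ≠ 0) ∧
    (∀ μ, |(p μ : ℝ)| ≤ 7 * (BX L).card * (Zc ^ T * Real.exp (3 * n * Lr * S))) ∧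
    ∀ m : Fin n → ℕ, (∑ i, m i) < T → ∀ k : ℕ, Odd k → k ≤ S →
      PH b e D.l (BX L) p m (k : ℂ) = 0

/-- choice of the parameters -/
def ST_PARM : Prop := ∀ (n d : ℕ) (c : ℝ), 1 ≤ n → 1 ≤ d → 0 < c → c ≤ 1 →
  ∃ C : ℝ, 1 ≤ C ∧ ∀ Om B : ℝ, 1 ≤ Om → 2 ≤ B →
    ∃ (Lr : ℝ) (S c0 Js : ℕ), 1 ≤ Lr ∧ Lr ≤ c * 2 ^ Js ∧ Even S ∧ 2 ≤ S ∧ 1 ≤ c0 ∧
      (4 * d * (S * (c0 * 2 ^ Js) ^ (n - 1)) : ℝ) ≤ Lr ^ n / Om ∧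
      ∀ (N Lam Zc P : ℝ) (J τ : ℕ), 1 ≤ N → N ≤ (Lr + 1) ^ n → 0 ≤ Lam →
        Lam < Real.exp (-C * Om * (Real.log (B * Om) + 1) ^ 3) →
        Zc = 3 * n * B * Om * Lr →
        P = 7 * N * (Zc ^ (c0 * 2 ^ Js) * Real.exp (3 * n * Lr * S)) →
        J + 1 ≤ Js → τ = c0 * 2 ^ (Js - (J + 1)) →
        (1 / 3) ^ (2 ^ J * (S / 2) * τ) * (N * P * Zc ^ τ * Real.exp (7 * n * Lr * S)) +
          Lam * (2 * ((2 ^ J * (S / 2) * τ : ℕ) : ℝ) *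
            (N * P * Zc ^ (2 * τ + 1) * τ * Real.exp (n * Lr * S)) *
            (8 * (2 ^ J * S)) ^ (2 ^ J * (S / 2) * τ)) <
        Real.exp (-((2 ^ n * d + 1 : ℕ) : ℝ) * (Real.log (N * P * Zc ^ τ) + 3 * n * Lr * S))

/-- main proposition -/
def ST_MAINP : Prop := ∀ (n d : ℕ) (c : ℝ), 1 ≤ n → 0 < c → c ≤ 1 → ∃ C : ℝ, 1 ≤ C ∧
  ∀ (K : Type) [Field K] [NumberField K], Module.finrank ℚ K = d → ∀ (D : BData n K), TP D c →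
  ∀ (b : Fin n → ℤ) (B : ℝ), b ≠ 0 → 2 ≤ B → (∀ i, |(b i : ℝ)| ≤ B) →
    Real.exp (-C * (∏ i, D.A i) * (Real.log (B * ∏ i, D.A i) + 1) ^ 3) ≤ ‖LS D.l b‖

/-- Baker's theorem with the product of the heights, arbitrary algebraic numbers -/
def ST_BT : Prop := ∀ n d : ℕ, ∃ C : ℝ, 1 ≤ C ∧ ∀ (K : Type) [Field K] [NumberField K],
  Module.finrank ℚ K = d → ∀ (D : BData n K) (b0 : ℤ) (b : Fin n → ℤ) (B : ℝ), 2 ≤ B →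
    |(b0 : ℝ)| ≤ B → (∀ i, |(b i : ℝ)| ≤ B) →
    (b0 : ℂ) * (2 * Real.pi * Complex.I) + LS D.l b ≠ 0 →
    Real.exp (-C * (∏ i, D.A i) * (Real.log (B * ∏ i, D.A i) + 1) ^ 3) ≤
      ‖(b0 : ℂ) * (2 * Real.pi * Complex.I) + LS D.l b‖

/-! ## Part B: cubic fields -/

/-- Minkowski -/
def ST_MINK : Prop := ∃ C0 : ℝ, 3 ≤ C0 ∧ ∀ (K : Type) [Field K] [NumberField K],
  Module.finrank ℚ K = 3 → MP K (Real.log (C0 * Real.sqrt |(discr K : ℝ)|))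

/-- number of ideals of bounded norm -/
def ST_IDC : Prop := ∀ ε : ℝ, 0 < ε → ∃ C : ℝ, 1 ≤ C ∧ ∀ (K : Type) [Field K] [NumberField K],
  Module.finrank ℚ K = 3 → ∀ (X : ℝ) (s : Finset (Ideal (𝓞 K))), 1 ≤ X →
    (∀ I ∈ s, I ≠ ⊥ ∧ (Ideal.absNorm I : ℝ) ≤ X) → (s.card : ℝ) ≤ C * X ^ (1 + ε)

/-- Gauss reduction of a system of at most two independent vectors -/
def ST_RB : Prop := ∀ (W : Type) [Fintype W] (r : ℕ) (v : Fin r → W → ℝ), r ≤ 2 →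
  LinearIndependent ℝ v → ∃ (u : Fin r → W → ℝ) (M M' : Fin r → Fin r → ℤ),
    (∀ i, u i = ∑ j, (M i j : ℝ) • v j) ∧ (∀ i, v i = ∑ j, (M' i j : ℝ) • u j) ∧
    ∀ (x : Fin r → ℝ) (i : Fin r),
      3 / 4 * (x i) ^ 2 * ∑ w, (u i w) ^ 2 ≤ ∑ w, (∑ j, x j * u j w) ^ 2

/-- reduced systems of units -/
def ST_LAT : Prop := ∃ c1 : ℝ, 0 < c1 ∧ c1 ≤ 1 ∧ ∀ (K : Type) [Field K] [NumberField K],
  Module.finrank ℚ K = 3 → ∃ (r : ℕ) (η : Fin r → (𝓞 K)ˣ) (lam : Fin r → ℝ),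
    r ≤ 2 ∧ UL K c1 r η lam

/-- the volume of the unit lattice -/
def ST_UNV : Prop := ∀ c1 ε : ℝ, 0 < c1 → c1 ≤ 1 → 0 < ε → ∃ C : ℝ, 1 ≤ C ∧
  ∀ (K : Type) [Field K] [NumberField K], Module.finrank ℚ K = 3 →
    ∀ (r : ℕ) (η : Fin r → (𝓞 K)ˣ) (lam : Fin r → ℝ), r ≤ 2 → UL K c1 r η lam →
      ∏ i, lam i ≤ C * |(discr K : ℝ)| ^ (1 / 2 + ε)

/-- chains of algebraic integers of small norm between `1` and a unit -/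
def ST_CHN : Prop := ∀ (K : Type) [Field K] [NumberField K] (Δ : ℝ), MP K Δ →
  ∀ (s : ℕ) (η : (𝓞 K)ˣ) (lam : ℝ) (B : ℕ), 1 ≤ B →
    (∀ w : InfinitePlace K, |Real.log (w ((η : 𝓞 K) : K))| ≤ lam) →
    lam ≤ (B : ℝ) ^ (s + 1) →
    ∃ β : Fin (s + 1) → K, (∀ k, β k ≠ 0 ∧ SizeLe (β k) ((B + 1) * Δ)) ∧
      ∀ x : ℝ, ∃ c : Fin (s + 1) → ℤ,
        (∀ k, |(c k : ℝ)| ≤ (|x| + 2) * (B : ℝ) ^ s) ∧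
        (∀ w : InfinitePlace K,
          |Real.log (w (∏ k, β k ^ c k)) - x * Real.log (w ((η : 𝓞 K) : K))| ≤
            (s + 1) * B * Δ) ∧
        ∃ q : ℕ, 1 ≤ q ∧ Real.log q ≤ s * B * Δ ∧
          IsIntegral ℤ ((q : K) * ∏ k, β k ^ c k) ∧
          IsIntegral ℤ ((q : K) * (∏ k, β k ^ c k)⁻¹)

/-- representation of an algebraic integer by numbers of small size -/
def ST_REPR : Prop := ∀ ε : ℝ, 0 < ε → ∃ (n : ℕ) (C : ℝ), 1 ≤ C ∧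
  ∀ (K : Type) [Field K] [NumberField K], Module.finrank ℚ K = 3 →
    ∀ (γ : 𝓞 K) (H : ℝ), γ ≠ 0 → 1 ≤ H → (∀ w : InfinitePlace K, |Real.log (w (γ : K))| ≤ H) →
    ∃ (β : Fin n → K) (a : Fin n → ℝ) (β' : K) (a' : ℝ) (c : Fin n → ℤ),
      (∀ i, β i ≠ 0 ∧ 1 ≤ a i ∧ SizeLe (β i) (a i)) ∧ β' ≠ 0 ∧ 1 ≤ a' ∧ SizeLe β' a' ∧
      (γ : K) = β' * ∏ i, β i ^ c i ∧
      (∀ i, |(c i : ℝ)| ≤ C * H * |(discr K : ℝ)| ^ C) ∧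
      a' * ∏ i, a i ≤ C * |(discr K : ℝ)| ^ (1 / 2 + ε) *
        (((Algebra.norm ℤ γ).natAbs : ℕ) : ℝ) ^ ε

/-! ## Part C: integral points on Mordell curves -/

/-- the reducible case -/
def ST_RED0 : Prop := ∀ x y r : ℤ, y ^ 2 ≠ x ^ 3 → r ^ 3 - 3 * x * r + 2 * y = 0 →
  |x| ≤ 2 * |y ^ 2 - x ^ 3|

/-- the roots of `X ^ 3 - 3 x X + 2 y` -/
def ST_ROOT : Prop := ∀ x y : ℤ, 0 < x → y ^ 2 ≠ x ^ 3 → ∃ t1 t2 t3 : ℂ,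
  (∀ X : ℂ, X ^ 3 - 3 * x * X + 2 * y = (X - t1) * (X - t2) * (X - t3)) ∧
  t1 ≠ t2 ∧ t1 ≠ t3 ∧ t2 ≠ t3 ∧
  ((t1 - t2) * (t1 - t3) * (t2 - t3)) ^ 2 = ((-108 * (y ^ 2 - x ^ 3) : ℤ) : ℂ) ∧
  ‖t2 - t3‖ * (x : ℝ) ^ (3 / 2 : ℝ) ≤ 6 * Real.sqrt |((y ^ 2 - x ^ 3 : ℤ) : ℝ)| * ‖t1 - t3‖ ∧
  ∀ t : ℂ, (t = t1 ∨ t = t2 ∨ t = t3) → ‖t‖ ≤ 1 + 3 * x + 2 * |(y : ℝ)|

/-- discriminant of the field and discriminant of an element -/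
def ST_DISC : Prop := ∀ (K : Type) [Field K] [NumberField K], Module.finrank ℚ K = 3 →
  ∀ (θ : 𝓞 K) (s1 s2 s3 : K →+* ℂ), s1 θ ≠ s2 θ → s1 θ ≠ s3 θ → s2 θ ≠ s3 θ →
    |(discr K : ℝ)| ≤ ‖(s1 θ - s2 θ) * (s1 θ - s3 θ) * (s2 θ - s3 θ)‖ ^ 2

/-- the cubic field attached to an integral point -/
def ST_CUB : Prop := ∀ x y : ℤ, 0 < x → y ^ 2 ≠ x ^ 3 →
  (∀ r : ℤ, r ^ 3 - 3 * x * r + 2 * y ≠ 0) →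
  ∃ (K : Type) (_ : Field K) (_ : NumberField K) (γ : 𝓞 K) (s1 s2 s3 : K →+* ℂ),
    Module.finrank ℚ K = 3 ∧ γ ≠ 0 ∧
    (s1 (γ : K))⁻¹ + (s2 (γ : K))⁻¹ + (s3 (γ : K))⁻¹ = 0 ∧
    ‖s2 (γ : K)‖ * (x : ℝ) ^ (3 / 2 : ℝ) ≤
      6 * Real.sqrt |((y ^ 2 - x ^ 3 : ℤ) : ℝ)| * ‖s1 (γ : K)‖ ∧
    |(discr K : ℝ)| ≤ 108 * |((y ^ 2 - x ^ 3 : ℤ) : ℝ)| ∧
    (((Algebra.norm ℤ γ).natAbs : ℕ) : ℝ) ≤ 108 * |((y ^ 2 - x ^ 3 : ℤ) : ℝ)| ∧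
    ∀ w : InfinitePlace K, |Real.log (w (γ : K))| ≤
      20 * Real.log ((x : ℝ) + |((y ^ 2 - x ^ 3 : ℤ) : ℝ)| + 2)

/-- a field containing two conjugates of a cubic field -/
def ST_CLO : Prop := ∀ (K : Type) [Field K] [NumberField K], Module.finrank ℚ K = 3 →
  ∀ s2 s3 : K →+* ℂ, ∃ (L : Type) (_ : Field L) (_ : NumberField L) (i : L →+* ℂ)
    (t2 t3 : K →+* L), Module.finrank ℚ L ≤ 9 ∧ i.comp t2 = s2 ∧ i.comp t3 = s3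

/-- the result -/
def ST_FIN : Prop := ∀ ε : ℝ, 0 < ε → ∃ C : ℝ, ∀ x y : ℤ, y ^ 2 ≠ x ^ 3 →
  Real.log |(x : ℝ)| ≤ C * |(y : ℝ) ^ 2 - (x : ℝ) ^ 3| ^ (1 / 2 + ε)

end Pool.Agent.Helper60.HB
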